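import Mathlib
import Pool.Agent.NPC.Defs
import Pool.Agent.MP_709f11_lc.Statement
import Pool.Agent.MP_709f11_lc.Main

set_option autoImplicit false

/-!
# `(p+2)`-star colourability of `K_{1,p+1}`-free `2p`-regular graphs is NP-complete

Proof: Cook-Levin, 3-SAT to `p`-colourability, and a reduction from `p`-colourability to the
colouring of a set with `p` colours bijectively on the blocks of three partitions into `p`-sets,
whose blocks become rigid gadgets (the collinearity graph of the directed triangles of a complete
digraph, minus two points) and extra vertices.
-/

open Pool.NPC Pool.Agent.MP_709f11_lc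

/-- For every `p ≥ 3`, `(p+2)`-STAR COLOURABILITY restricted to `K_{1,p+1}`-free `2p`-regular graphs
is NP-complete: the set of (the adjacency matrices of) the yes-instances is in NP and NP-hard, and
the reductions can be chosen to produce only graphs of the class. -/
theorem Pool.Agent.Results.MP_709f11_lc.NPComplete.result (p : ℕ) (hp : 3 ≤ p) :
    (InNP (starProblem p) ∧ NPHard (starProblem p)) ∧
      ∀ L : Set (List Bool), InNP L → ∃ f : List Bool → List Bool, PolyTimeComputable f ∧
        ∀ x, ∃ (n : ℕ) (G : SimpleGraph (Fin n)), f x = encodeGraph G ∧ InClass p G ∧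
          (x ∈ L ↔ ∃ c, IsStarColouring G (p + 2) c) :=
  ⟨⟨inNP_starProblem p, npHard_starProblem p hp⟩, fun L hL => reduction_exists p hp L hL⟩
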